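import Pool.Agent.SPV.Defs

set_option autoImplicit false

/-!
# SPV, row CHE: the minors of the Fourier matrix of prime order (Chebotarev).
-/

namespace Pool.Agent.SPV.H21

open Polynomial Finset Pool.Agent.SPV

/-! ### the operator `X d/dX` -/

/-- `X d/dX` -/
noncomputable def th {F : Type} [CommRing F] (g : F[X]) : F[X] := X * derivative g

theorem th_sum {F : Type} [CommRing F] {k : ℕ} (c : Fin k → F) (a : Fin k → ℕ) :
    th (∑ j, C (c j) * X ^ a j) = ∑ j, C (c j * (a j : F)) * X ^ a j := by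
  unfold th
  rw [derivative_sum, mul_sum]
  refine sum_congr rfl fun j _ => ?_
  rw [derivative_C_mul_X_pow]
  rcases Nat.eq_zero_or_pos (a j) with h0 | h0
  · rw [h0]
    simp
  · have e : a j = (a j - 1) + 1 := by omega
    calc X * (C (c j * (a j : F)) * X ^ (a j - 1)) = C (c j * (a j : F)) * X ^ ((a j - 1) + 1) := by
          rw [pow_succ]; ring
      _ = C (c j * (a j : F)) * X ^ a j := by rw [← e]

theorem th_iter {F : Type} [CommRing F] {k : ℕ} (a : Fin k → ℕ) (i : ℕ) (c : Fin k → F) :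
    th^[i] (∑ j, C (c j) * X ^ a j) = ∑ j, C (c j * (a j : F) ^ i) * X ^ a j := by
  induction i generalizing c with
  | zero => simp
  | succ i ih =>
    rw [Function.iterate_succ_apply, th_sum, ih]
    refine sum_congr rfl fun j _ => ?_
    rw [pow_succ]
    congr 2
    ring

theorem th_dvd {F : Type} [CommRing F] (g : F[X]) (k i : ℕ) (h : (X - C (1 : F)) ^ k ∣ g) :
    (X - C (1 : F)) ^ (k - i) ∣ th^[i] g := by
  induction i with
  | zero => simpa using h
  | succ i ih =>
    rw [Function.iterate_succ_apply']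
    have h1 := pow_sub_one_dvd_derivative_of_pow_dvd ih
    have e : k - (i + 1) = k - i - 1 := by omega
    rw [e]
    exact Dvd.dvd.mul_left h1 _

/-- a polynomial with `k` coefficients in degrees which are distinct in the domain is not divisible by `(X-1)^k`. -/
theorem mult_one {F : Type} [CommRing F] [IsDomain F] {k : ℕ} (c : Fin k → F) (a : Fin k → ℕ)
    (ha : Function.Injective fun j => (a j : F))
    (h : (X - C (1 : F)) ^ k ∣ ∑ j, C (c j) * X ^ a j) : c = 0 := by
  apply Matrix.eq_zero_of_forall_pow_sum_mul_pow_eq_zero ha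
  intro i
  have h1 := th_dvd _ k (i : ℕ) h
  rw [th_iter] at h1
  have h2 : (X - C (1 : F)) ∣ ∑ j, C (c j * (a j : F) ^ (i : ℕ)) * X ^ a j := by
    refine dvd_trans ?_ h1
    exact dvd_pow_self _ (by have := i.isLt; omega)
  have h3 := eval_eq_zero_of_dvd_of_eval_eq_zero h2 (by simp : (X - C (1 : F) : F[X]).eval (1 : F) = 0)
  rw [eval_finsetSum] at h3
  simpa using h3

/-! ### the theorem -/

theorem che : CheStmt := by
  intro q _ hq w hw k t a ht ha hdet
  classical
  have : Fact q.Prime := ⟨hq⟩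
  set Φ : ℤ[X] := cyclotomic q ℤ with hΦ
  have hΦirr : Irreducible Φ := cyclotomic.irreducible hq.pos
  have hdom : IsDomain (AdjoinRoot Φ) := AdjoinRoot.isDomain_of_prime hΦirr.prime
  have hroot : eval₂ (Int.castRingHom ℂ) w Φ = 0 := by
    have h1 := hw.isRoot_cyclotomic hq.pos
    rw [IsRoot.def, ← map_cyclotomic_int, eval_map] at h1
    exact h1
  set emb : AdjoinRoot Φ →+* ℂ := AdjoinRoot.lift (Int.castRingHom ℂ) w hroot with hemb
  have hinj : Function.Injective emb := by
    rw [injective_iff_map_eq_zero]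
    intro x hx
    obtain ⟨g, rfl⟩ := AdjoinRoot.mk_surjective x
    rw [hemb, AdjoinRoot.lift_mk] at hx
    rw [AdjoinRoot.mk_eq_zero, hΦ, cyclotomic_eq_minpoly hw hq.pos]
    exact minpoly.isIntegrallyClosed_dvd (hw.isIntegral hq.pos) hx
  set ζ : AdjoinRoot Φ := AdjoinRoot.root Φ with hζ
  have hembζ : emb ζ = w := AdjoinRoot.lift_root _
  have hζq : ζ ^ q = 1 := by
    apply hinj
    rw [map_pow, hembζ, map_one, hw.pow_eq_one]
  have hroot1 : eval₂ (Int.castRingHom (ZMod q)) 1 Φ = 0 := by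
    rw [← eval_map, hΦ, map_cyclotomic_int, eval_one_cyclotomic_prime]
    exact CharP.cast_eq_zero (ZMod q) q
  set ρ : AdjoinRoot Φ →+* ZMod q := AdjoinRoot.lift (Int.castRingHom (ZMod q)) 1 hroot1 with hρ
  have hρζ : ρ ζ = 1 := AdjoinRoot.lift_root _
  -- the kernel of `ρ` is generated by `ζ - 1`
  have hlin : ∀ g : ℤ[X], (ζ - 1) ∣ AdjoinRoot.mk Φ g - AdjoinRoot.mk Φ (C (g.eval 1)) := by
    intro g
    have h1 : (X - C (1 : ℤ)) ∣ g - C (g.eval 1) := by
      rw [dvd_iff_isRoot]; simp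
    have h2 := _root_.map_dvd (AdjoinRoot.mk Φ) h1
    rw [map_sub, map_sub, AdjoinRoot.mk_X, C_1, map_one] at h2
    exact h2
  have hqdvd : (ζ - 1) ∣ AdjoinRoot.mk Φ (C (q : ℤ)) := by
    have h1 := hlin Φ
    rw [AdjoinRoot.mk_self, zero_sub, dvd_neg] at h1
    have h2 : Φ.eval 1 = (q : ℤ) := by rw [hΦ, eval_one_cyclotomic_prime]
    rwa [h2] at h1
  have hker : ∀ x, ρ x = 0 → (ζ - 1) ∣ x := by
    intro x hx
    obtain ⟨g, rfl⟩ := AdjoinRoot.mk_surjective x
    rw [hρ, AdjoinRoot.lift_mk] at hx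
    have h1 : ((g.eval 1 : ℤ) : ZMod q) = 0 := by
      have h2 : eval₂ (Int.castRingHom (ZMod q)) ((Int.castRingHom (ZMod q)) 1) g = 0 := by
        rw [map_one]; exact hx
      rw [eval₂_at_apply] at h2
      exact h2
    rw [ZMod.intCast_zmod_eq_zero_iff_dvd] at h1
    obtain ⟨m, hm⟩ := h1
    have h3 := hlin g
    have h4 : (ζ - 1) ∣ AdjoinRoot.mk Φ (C (g.eval 1)) := by
      rw [hm, C_mul, map_mul]
      exact Dvd.dvd.mul_right hqdvd _
    have h5 := dvd_add h3 h4
    rwa [sub_add_cancel] at h5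
  have hnu : ¬ IsUnit (ζ - 1) := by
    intro hu
    have := hu.map ρ
    rw [map_sub, hρζ, map_one, sub_self] at this
    exact not_isUnit_zero this
  have hπ0 : ζ - 1 ≠ 0 := by
    intro h0
    have h1 : w = 1 := by
      rw [← hembζ, sub_eq_zero.mp h0, map_one]
    have h2 := hw.unique (h1 ▸ IsPrimitiveRoot.one)
    exact hq.one_lt.ne' h2
  -- the kernel vector
  set M : Matrix (Fin k) (Fin k) (AdjoinRoot Φ) := Matrix.of fun i j => ζ ^ (t i * a j).val with hM
  have hMdet : M.det = 0 := by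
    apply hinj
    rw [map_zero, RingHom.map_det]
    rw [← hdet]
    congr 1
    ext i j
    simp [hM, hembζ]
  obtain ⟨v, hv0, hv⟩ := Matrix.exists_mulVec_eq_zero_iff.mpr hMdet
  obtain ⟨j0, hj0⟩ := Function.ne_iff.mp hv0
  have hex : ∃ n : ℕ, ∃ j, ¬ (ζ - 1) ^ (n + 1) ∣ v j := by
    obtain ⟨n, hn⟩ := FiniteMultiplicity.of_not_isUnit hnu hj0
    exact ⟨n, j0, hn⟩
  obtain ⟨j1, hj1⟩ := Nat.find_spec hex
  have hall : ∀ j, (ζ - 1) ^ Nat.find hex ∣ v j := by
    intro j
    rcases Nat.eq_zero_or_pos (Nat.find hex) with h0 | h0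
    · rw [h0, pow_zero]; exact one_dvd _
    · have h1 := Nat.find_min hex (m := Nat.find hex - 1) (by omega)
      push Not at h1
      have h2 := h1 j
      rwa [Nat.sub_add_cancel h0] at h2
  generalize Nat.find hex = n at hj1 hall
  choose c hc using hall
  have hcj1 : ¬ (ζ - 1) ∣ c j1 := by
    intro hd
    apply hj1
    rw [hc j1, pow_succ]
    exact mul_dvd_mul_left _ hd
  have hMc : ∀ i, ∑ j, c j * ζ ^ (t i * a j).val = 0 := by
    intro i
    have h1 := congrFun hv i
    rw [Matrix.mulVec, dotProduct] at h1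
    have h2 : (ζ - 1) ^ n * ∑ j, c j * ζ ^ (t i * a j).val = 0 := by
      rw [mul_sum]
      refine Eq.trans ?_ h1
      refine sum_congr rfl fun j _ => ?_
      rw [hc j, hM, Matrix.of_apply]
      ring
    rcases mul_eq_zero.mp h2 with h3 | h3
    · exact absurd h3 (pow_ne_zero _ hπ0)
    · exact h3
  -- the polynomial
  set f : (AdjoinRoot Φ)[X] := ∑ j, C (c j) * X ^ (a j).val with hf
  have hfroot : ∀ i, f.eval (ζ ^ (t i).val) = 0 := by
    intro i
    rw [hf, eval_finsetSum, ← hMc i]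
    refine sum_congr rfl fun j _ => ?_
    rw [eval_mul, eval_C, eval_pow, eval_X, ← pow_mul]
    congr 1
    rw [ZMod.val_mul, ← pow_eq_pow_mod _ hζq]
  have hfmap : f.map ρ = ∑ j, C (ρ (c j)) * X ^ (a j).val := by
    rw [hf, Polynomial.map_sum]
    refine sum_congr rfl fun j _ => ?_
    simp
  have hainj : Function.Injective fun j => (((a j).val : ℕ) : ZMod q) := by
    intro i j hij
    simp only [ZMod.natCast_zmod_val] at hij
    exact ha hij
  have hρc : ρ (c j1) ≠ 0 := fun h => hcj1 (hker _ h)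
  have hfm0 : f.map ρ ≠ 0 := by
    intro h0
    have h1 : (fun j => ρ (c j)) = 0 := by
      apply mult_one _ (fun j => (a j).val) hainj
      rw [← hfmap, h0]
      exact dvd_zero _
    exact hρc (congrFun h1 j1)
  have hf0 : f ≠ 0 := by
    intro h0
    apply hfm0
    rw [h0, Polynomial.map_zero]
  have hrinj : Function.Injective fun i => ζ ^ (t i).val := by
    intro i j hij
    have h1 : w ^ (t i).val = w ^ (t j).val := by
      have := congrArg emb hij
      simpa [hembζ] using this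
    exact ht (ZMod.val_injective q (hw.pow_inj (ZMod.val_lt _) (ZMod.val_lt _) h1))
  have hdvd : (∏ i, (X - C (ζ ^ (t i).val))) ∣ f := by
    have h1 : ((univ.val.map fun i => ζ ^ (t i).val).map fun x => X - C x).prod ∣ f := by
      rw [Multiset.prod_X_sub_C_dvd_iff_le_roots hf0]
      refine (Multiset.le_iff_subset ?_).mpr ?_
      · exact Multiset.Nodup.map hrinj univ.nodup
      · intro x hx
        obtain ⟨i, _, rfl⟩ := Multiset.mem_map.mp hx
        rw [mem_roots hf0]
        exact hfroot i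
    rw [Multiset.map_map] at h1
    exact h1
  have hdvd2 : (X - C (1 : ZMod q)) ^ k ∣ f.map ρ := by
    have h1 := Polynomial.map_dvd ρ hdvd
    rw [Polynomial.map_prod] at h1
    have h2 : (∏ i : Fin k, Polynomial.map ρ (X - C (ζ ^ (t i).val))) = (X - C (1 : ZMod q)) ^ k := by
      rw [prod_congr rfl (g := fun _ => (X - C (1 : ZMod q)))]
      · simp
      · intro i _
        simp [hρζ]
    rwa [h2] at h1
  rw [hfmap] at hdvd2
  exact hρc (congrFun (mult_one _ _ hainj hdvd2) j1)

end Pool.Agent.SPV.H21
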